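import Pool.Agent.TH613.KB.Main
import Mathlib.Algebra.CharP.Defs

/-!
# Brauer's `k(B)` conjecture up to small powers

`k` is an algebraically closed field of characteristic `p`. A block of a finite group `G` is given
by its idempotent `e ∈ Z(k[G])` (`IsBlock e`), `kB e = dim Z(k[G]) e = k(B)`, and `IsDefectGroup e D`
says that `D` is a subgroup of smallest order with `e ∈ Tr_D^G((k[G])^D)`, so that `|D|` is the
order of the defect groups. These are the definitions of the frozen statement S02531.

Let `𝒞` be a class of groups closed under direct products of two groups (for example all groups, or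
the powers of one group). Theorem. The following are equivalent:
1. `k(B) ≤ |D|` for all blocks `B` of finite groups `G` in `𝒞`;
2. for every `ε > 0` there is `C` with `k(B) ≤ C |D| ^ (1 + ε)` for all blocks of groups in `𝒞`;
3. for every `ε > 0` there is `C` with `k(B) ≤ C |G| ^ ε |D|` for all blocks of groups in `𝒞`.

Proof. For blocks `B`, `B'` of `G`, `G'` the tensor product is a block of `G × G'` with
`k(B ⊗ B') ≥ k(B) k(B')` and defect groups of order at most `|D| |D'|`; take powers.
-/

set_option autoImplicit false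

namespace Pool.Agent.Results.MP_a15589_al.AsymptoticKB

open Pool.Agent.TH613.KB

/-- The inequality `k(B) ≤ |D|` for all blocks of finite groups in a class closed under products is
equivalent to `k(B) ≤ C |D| ^ (1 + ε)`, and to `k(B) ≤ C |G| ^ ε |D|`, for every `ε > 0`. -/
theorem result (p : ℕ) (_ : p.Prime) (k : Type) [Field k] [IsAlgClosed k] [CharP k p]
    (𝒞 : ∀ (G : Type) [Group G], Prop)
    (h𝒞 : ∀ (G H : Type) [Group G] [Group H], 𝒞 G → 𝒞 H → 𝒞 (G × H)) :
    List.TFAE [
      ∀ (G : Type) [Group G] [Finite G], 𝒞 G → ∀ (e : MonoidAlgebra k G) (D : Subgroup G),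
        IsBlock e → IsDefectGroup e D → kB e ≤ Nat.card D,
      ∀ ε : ℝ, 0 < ε → ∃ C : ℝ, ∀ (G : Type) [Group G] [Finite G], 𝒞 G →
        ∀ (e : MonoidAlgebra k G) (D : Subgroup G), IsBlock e → IsDefectGroup e D →
          (kB e : ℝ) ≤ C * (Nat.card D : ℝ) ^ (1 + ε),
      ∀ ε : ℝ, 0 < ε → ∃ C : ℝ, ∀ (G : Type) [Group G] [Finite G], 𝒞 G →
        ∀ (e : MonoidAlgebra k G) (D : Subgroup G), IsBlock e → IsDefectGroup e D →
          (kB e : ℝ) ≤ C * (Nat.card G : ℝ) ^ ε * (Nat.card D : ℝ)] :=
  main 𝒞 h𝒞

end Pool.Agent.Results.MP_a15589_al.AsymptoticKB
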